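import Pool.Agent.W610.HY.Stm

set_option autoImplicit false

namespace Pool.Agent.W337.HY.GOOD

open Pool.Agent.W610.HY
open MeasureTheory Set Metric

theorem main (hOUT : OUT) (hMCON : MCON) : Pool.Agent.W610.HY.GOOD := by
  intro 𝒜 _ _ _ a c r hr hint
  have hcm : ∀ θ : ℝ, circleMap c r θ = c + r * circleMap 0 1 θ := by
    intro θ
    simp [circleMap]
  set m : ℂ → ENNReal := fun z => mm a (c + r * z) with hm
  have hmc : Continuous m := by
    have h0 : Continuous (fun z : ℂ => c + r * z) := by fun_prop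
    exact (hMCON 𝒜 a).comp h0
  have hmeq : ∀ θ : ℝ, m (circleMap 0 1 θ) = mm a (circleMap c r θ) := by
    intro θ
    rw [hcm θ]
  have hmi : (∫⁻ θ in Ioc (0:ℝ) (2 * Real.pi), m (circleMap 0 1 θ)) ≠ ⊤ := by
    simp only [hmeq]
    exact hint
  obtain ⟨h, h1, h2, h3, h4⟩ := hOUT m hmc.continuousOn hmi
  have key : ∀ θ, m (circleMap 0 1 θ) ≠ ⊤ → circleMap c r θ ∉ spectrum ℂ a ∧
      (m (circleMap 0 1 θ)).toReal = Real.posLog ‖resolvent a (circleMap c r θ)‖ := by
    intro θ hθ
    have hns : circleMap c r θ ∉ spectrum ℂ a := by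
      intro hs
      apply hθ
      rw [hmeq]
      unfold mm
      rw [if_pos hs]
    refine ⟨hns, ?_⟩
    rw [hmeq]
    unfold mm
    rw [if_neg hns]
    exact ENNReal.toReal_ofReal Real.posLog_nonneg
  refine ⟨h, hr, h1, ?_, ?_, ?_, h3, ?_⟩
  · filter_upwards [h2] with θ hθ
    exact not_not.1 (key θ hθ.1).1
  · filter_upwards [h2] with θ hθ
    refine hθ.2.trans ?_
    rw [(key θ hθ.1).2]
    exact Real.exp_le_one_iff.2 (neg_nonpos.2 Real.posLog_nonneg)
  · filter_upwards [h2] with θ hθ
    have h5 := hθ.2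
    rw [(key θ hθ.1).2] at h5
    set R := ‖resolvent a (circleMap c r θ)‖ with hR
    have hR0 : 0 ≤ R := norm_nonneg _
    calc ‖h θ‖ * R ≤ Real.exp (-Real.posLog R) * R := mul_le_mul_of_nonneg_right h5 hR0
      _ ≤ 1 := by
        rcases eq_or_lt_of_le hR0 with h0 | h0
        · rw [← h0, mul_zero]
          exact zero_le_one
        · have h6 : Real.log R ≤ Real.posLog R := le_max_right _ _
          calc Real.exp (-Real.posLog R) * R ≤ Real.exp (-Real.log R) * R := by
                apply mul_le_mul_of_nonneg_right _ hR0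
                exact Real.exp_le_exp.2 (by linarith)
            _ = 1 := by
                rw [Real.exp_neg, Real.exp_log h0]
                exact inv_mul_cancel₀ h0.ne'
  · intro w hw
    have hrc : (r : ℂ) ≠ 0 := by exact_mod_cast hr.ne'
    set w' : ℂ := (w - c) / r with hw'
    have hw1 : 1 < ‖w'‖ := by
      rw [hw', norm_div, Complex.norm_real, Real.norm_eq_abs, abs_of_pos hr, lt_div_iff₀ hr, one_mul]
      exact hw
    have e := h4 w' hw1
    have h7 : (fun θ : ℝ => h θ * (circleMap 0 1 θ / (circleMap c r θ - w)))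
        = fun θ : ℝ => (1 / (r : ℂ)) * (h θ * (circleMap 0 1 θ / (circleMap 0 1 θ - w'))) := by
      funext θ
      have h8 : circleMap c r θ - w = r * (circleMap 0 1 θ - w') := by
        rw [hcm, hw', mul_sub, mul_div_cancel₀ _ hrc]
        ring
      rw [h8, one_div, div_eq_mul_inv, mul_inv, div_eq_mul_inv]
      ring
    rw [h7, intervalIntegral.integral_const_mul, e, mul_zero]

end Pool.Agent.W337.HY.GOOD
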